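import Pool.Agent.Q72.DS.Stm

/-!
Project DS (helper72), job ALGA.
-/

set_option autoImplicit false

namespace Pool.Agent.Q121.DS

open Complex Filter Topology
open Pool.Agent.Q72.DS

/-! ### ALGA -/

theorem ex_root (d : ℤ) (hd : d ≠ 0) (w : ℂ) (hw : w ≠ 0) : ∃ t : ℂ, t ≠ 0 ∧ t ^ d = w := by
  refine ⟨Complex.exp (Complex.log w / d), Complex.exp_ne_zero _, ?_⟩
  rw [← Complex.exp_int_mul]
  have hd' : (d : ℂ) ≠ 0 := by exact_mod_cast hd
  rw [mul_div_cancel₀ _ hd', Complex.exp_log hw]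

theorem algA : S_algA := by
  intro a b u v u₁ v₁ p q x y hu hv hu₁ hv₁ hab huv₁ hpq H
  have hd : p - q ≠ 0 := sub_ne_zero.2 hpq
  -- at the special points the value of V is one
  have key : ∀ t : ℂ, t ≠ 0 → t ^ (p - q) = v / u → t ^ q * v = 1 := by
    intro t ht htd
    have hUV : t ^ p * u = t ^ q * v := by
      have h1 : t ^ p = t ^ (p - q) * t ^ q := by
        rw [← zpow_add₀ ht]
        congr 1
        ring
      rw [h1, htd]
      field_simp
    by_contra hne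
    have hV0 : t ^ q * v ≠ 0 := mul_ne_zero (zpow_ne_zero _ ht) hv
    have h2 := H t ht
    unfold Pool.Agent.Q72.DS.Rel at h2
    rw [hUV] at h2
    have h3 : (t ^ x * u₁ - t ^ y * v₁) * ((b - a) * (t ^ q * v) * (1 - t ^ q * v)) = 0 := by
      linear_combination -h2
    have h4 : (b - a) * (t ^ q * v) * (1 - t ^ q * v) ≠ 0 :=
      mul_ne_zero (mul_ne_zero (sub_ne_zero.2 hab.symm) hV0) (sub_ne_zero.2 (Ne.symm hne))
    have h5 : t ^ x * u₁ - t ^ y * v₁ = 0 := (mul_eq_zero.1 h3).resolve_right h4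
    -- derivatives
    have dU : HasDerivAt (fun s : ℂ => s ^ p * u) (p * t ^ (p - 1) * u) t :=
      (hasDerivAt_zpow p t (Or.inl ht)).mul_const u
    have dV : HasDerivAt (fun s : ℂ => s ^ q * v) (q * t ^ (q - 1) * v) t :=
      (hasDerivAt_zpow q t (Or.inl ht)).mul_const v
    have dU₁ : HasDerivAt (fun s : ℂ => s ^ x * u₁) (x * t ^ (x - 1) * u₁) t :=
      (hasDerivAt_zpow x t (Or.inl ht)).mul_const u₁
    have dV₁ : HasDerivAt (fun s : ℂ => s ^ y * v₁) (y * t ^ (y - 1) * v₁) t :=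
      (hasDerivAt_zpow y t (Or.inl ht)).mul_const v₁
    have dL := (dU₁.mul (dV₁.const_sub 1)).mul ((dU.sub dV).pow 2)
    have dB := ((dU.mul (dV.const_sub 1)).mul (dU.sub dV)).sub ((dU.const_mul a).mul (dV.const_sub 1))
      |>.add ((dV.const_mul b).mul (dU.const_sub 1))
    have dR := (dU₁.sub dV₁).mul dB
    have hev : (fun s : ℂ => (s ^ x * u₁) * (1 - s ^ y * v₁) * (s ^ p * u - s ^ q * v) ^ 2) =ᶠ[𝓝 t]
        (fun s : ℂ => (s ^ x * u₁ - s ^ y * v₁) * ((s ^ p * u) * (1 - s ^ q * v) *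
          (s ^ p * u - s ^ q * v) - a * (s ^ p * u) * (1 - s ^ q * v) +
          b * (s ^ q * v) * (1 - s ^ p * u))) := by
      filter_upwards [isOpen_ne.mem_nhds ht] with s hs
      exact H s hs
    have dL' := dL.congr_of_eventuallyEq hev.symm
    have h6 := dL'.unique dR
    simp only [Pi.mul_apply, Pi.sub_apply, Pi.pow_apply, Pi.add_apply] at h6
    have h7 : t ^ p * u - t ^ q * v = 0 := sub_eq_zero.2 hUV
    rw [h7, h5] at h6
    have h8 : (x * t ^ (x - 1) * u₁ - y * t ^ (y - 1) * v₁) *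
        ((b - a) * (t ^ q * v) * (1 - t ^ q * v)) = 0 := by
      rw [hUV] at h6
      linear_combination -h6
    have h9 : (x * t ^ (x - 1) * u₁ - y * t ^ (y - 1) * v₁) = 0 := (mul_eq_zero.1 h8).resolve_right h4
    rw [zpow_sub_one₀ ht, zpow_sub_one₀ ht] at h9
    have h10 : ((x : ℂ) - y) * (t ^ x * u₁) = 0 := by
      have h11 : (x * (t ^ x * t⁻¹) * u₁ - y * (t ^ y * t⁻¹) * v₁) * t = 0 := by
        rw [h9, zero_mul]
      have h12 : (x * (t ^ x * t⁻¹) * u₁ - y * (t ^ y * t⁻¹) * v₁) * t =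
          x * (t ^ x * u₁) - y * (t ^ y * v₁) := by
        field_simp
      rw [h12] at h11
      linear_combination h11 - y * h5
    have h13 : (x : ℂ) - y = 0 :=
      (mul_eq_zero.1 h10).resolve_right (mul_ne_zero (zpow_ne_zero _ ht) hu₁)
    have h14 : x = y := by
      have := sub_eq_zero.1 h13
      exact_mod_cast this
    rw [h14, ← mul_sub] at h5
    exact huv₁ (sub_eq_zero.1 ((mul_eq_zero.1 h5).resolve_left (zpow_ne_zero _ ht)))
  obtain ⟨t0, ht0, htd⟩ := ex_root (p - q) hd (v / u) (div_ne_zero hv hu)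
  have h1 := key t0 ht0 htd
  -- roots of unity
  set ζ : ℂ := Complex.exp (2 * Real.pi * Complex.I / (p - q : ℤ)) with hζ
  have hd' : (((p - q : ℤ)) : ℂ) ≠ 0 := by exact_mod_cast hd
  have hζ0 : ζ ≠ 0 := Complex.exp_ne_zero _
  have hζd : ζ ^ (p - q) = 1 := by
    rw [hζ, ← Complex.exp_int_mul, mul_div_cancel₀ _ hd', Complex.exp_two_pi_mul_I]
  have h2 := key (ζ * t0) (mul_ne_zero hζ0 ht0) (by rw [mul_zpow, hζd, one_mul, htd])
  have h3 : ζ ^ q = 1 := by
    rw [mul_zpow, mul_assoc, h1, mul_one] at h2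
    exact h2
  obtain ⟨l, hl⟩ : ∃ l : ℤ, q = l * (p - q) := by
    rw [hζ, ← Complex.exp_int_mul, Complex.exp_eq_one_iff] at h3
    obtain ⟨n, hn⟩ := h3
    refine ⟨n, ?_⟩
    have h4 : (2 * Real.pi * Complex.I : ℂ) ≠ 0 := Complex.two_pi_I_ne_zero
    have h5 : (q : ℂ) = n * (p - q : ℤ) := by
      field_simp at hn
      have h6 : (q : ℂ) * (2 * Real.pi * Complex.I) =
          (n * ((p - q : ℤ) : ℂ)) * (2 * Real.pi * Complex.I) := by
        first
        | linear_combination hn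
        | linear_combination (2 * Real.pi * Complex.I) * hn
      exact mul_right_cancel₀ h4 h6
    exact_mod_cast h5
  refine ⟨l, hl, ?_⟩
  have h4 : t0 ^ q = (v / u) ^ l := by
    rw [hl, mul_comm, zpow_mul, htd]
  rw [h4] at h1
  have h5 : (u / v) ^ l * (v / u) ^ l = 1 := by
    rw [← mul_zpow]
    have : u / v * (v / u) = 1 := by field_simp
    rw [this, one_zpow]
  calc v = (u / v) ^ l * (v / u) ^ l * v := by rw [h5, one_mul]
    _ = (u / v) ^ l * ((v / u) ^ l * v) := by ring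
    _ = (u / v) ^ l := by rw [h1, mul_one]

end Pool.Agent.Q121.DS
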