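import Pool.Agent.Q72.DS.Stm

/-!
Project DS (helper72), jobs ALGB and ALGC.
-/

set_option autoImplicit false

namespace Pool.Agent.Q121.DS

open Complex Filter Topology

/-- the function has order `n` at zero -/
def Od (f : ℂ → ℂ) (n : ℤ) : Prop :=
  ∃ g : ℂ → ℂ, ContinuousAt g 0 ∧ g 0 ≠ 0 ∧ ∀ t : ℂ, t ≠ 0 → f t = t ^ n * g t

theorem zero_of_ne {f : ℂ → ℂ} (hf : ContinuousAt f 0) (h : ∀ t : ℂ, t ≠ 0 → f t = 0) : f 0 = 0 := by
  have h1 : Tendsto f (𝓝[≠] 0) (𝓝 (f 0)) := hf.tendsto.mono_left nhdsWithin_le_nhds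
  have h2 : Tendsto f (𝓝[≠] 0) (𝓝 0) := by
    refine tendsto_const_nhds.congr' ?_
    filter_upwards [self_mem_nhdsWithin] with t ht
    exact (h t ht).symm
  exact tendsto_nhds_unique h1 h2

theorem Od.le {f : ℂ → ℂ} {n m : ℤ} (hn : Od f n) (hm : Od f m) : m ≤ n := by
  obtain ⟨g, hg, hg0, hgf⟩ := hn
  obtain ⟨h, hh, hh0, hhf⟩ := hm
  by_contra hlt
  push Not at hlt
  obtain ⟨k, hk⟩ : ∃ k : ℕ, m = n + (k + 1) := ⟨(m - n - 1).toNat, by omega⟩
  have h1 : ∀ t : ℂ, t ≠ 0 → g t - t ^ (k + 1) * h t = 0 := by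
    intro t ht
    have e1 : t ^ n * g t = t ^ m * h t := by rw [← hgf t ht, hhf t ht]
    have e2 : t ^ m = t ^ n * t ^ (k + 1) := by
      rw [hk, zpow_add₀ ht]
      norm_cast
    have e3 : t ^ n * (g t - t ^ (k + 1) * h t) = 0 := by
      rw [e2] at e1
      linear_combination e1
    exact (mul_eq_zero.1 e3).resolve_left (zpow_ne_zero _ ht)
  have h2 := zero_of_ne (f := fun t => g t - t ^ (k + 1) * h t)
    (hg.sub ((continuousAt_id.pow (k + 1)).mul hh)) h1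
  simp at h2
  exact hg0 h2

theorem Od.unique {f : ℂ → ℂ} {n m : ℤ} (hn : Od f n) (hm : Od f m) : m = n :=
  le_antisymm (hn.le hm) (hm.le hn)

theorem Od.mul {f g : ℂ → ℂ} {n m : ℤ} (hf : Od f n) (hg : Od g m) :
    Od (fun t => f t * g t) (n + m) := by
  obtain ⟨a, ha, ha0, haf⟩ := hf
  obtain ⟨b, hb, hb0, hbf⟩ := hg
  refine ⟨fun t => a t * b t, ha.mul hb, mul_ne_zero ha0 hb0, fun t ht => ?_⟩
  show f t * g t = t ^ (n + m) * (a t * b t)
  rw [haf t ht, hbf t ht, zpow_add₀ ht]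
  ring

theorem Od.mono {c : ℂ} (hc : c ≠ 0) (n : ℤ) : Od (fun t => t ^ n * c) n :=
  ⟨fun _ => c, continuousAt_const, hc, fun _ _ => rfl⟩

theorem Od.bin {a b : ℂ} (x y : ℤ) (ha : a ≠ 0) (hb : b ≠ 0) (hab : x = y → a + b ≠ 0) :
    Od (fun t => t ^ x * a + t ^ y * b) (min x y) := by
  rcases lt_trichotomy x y with h | h | h
  · obtain ⟨k, hk⟩ : ∃ k : ℕ, y = x + (k + 1) := ⟨(y - x - 1).toNat, by omega⟩
    rw [min_eq_left h.le]
    refine ⟨fun t => a + t ^ (k + 1) * b, ?_, ?_, fun t ht => ?_⟩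
    · fun_prop
    · simpa using ha
    · show t ^ x * a + t ^ y * b = t ^ x * (a + t ^ (k + 1) * b)
      have e2 : t ^ y = t ^ x * t ^ (k + 1) := by
        rw [hk, zpow_add₀ ht]
        norm_cast
      rw [e2]
      ring
  · subst h
    rw [min_self]
    exact ⟨fun _ => a + b, continuousAt_const, hab rfl, fun t _ => by ring⟩
  · obtain ⟨k, hk⟩ : ∃ k : ℕ, x = y + (k + 1) := ⟨(x - y - 1).toNat, by omega⟩
    rw [min_eq_right h.le]
    refine ⟨fun t => t ^ (k + 1) * a + b, ?_, ?_, fun t ht => ?_⟩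
    · fun_prop
    · simpa using hb
    · show t ^ x * a + t ^ y * b = t ^ y * (t ^ (k + 1) * a + b)
      have e2 : t ^ x = t ^ y * t ^ (k + 1) := by
        rw [hk, zpow_add₀ ht]
        norm_cast
      rw [e2]
      ring

theorem Od.tri {A B C : ℂ} (p : ℤ) (hp : p ≠ 0) (hA : A ≠ 0) (hC : C ≠ 0) :
    Od (fun t => A + t ^ p * B + t ^ (2 * p) * C) (min 0 (2 * p)) := by
  rcases lt_or_gt_of_ne hp with h | h
  · obtain ⟨k, hk⟩ : ∃ k : ℕ, p = -((k : ℤ) + 1) := ⟨(-p - 1).toNat, by omega⟩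
    rw [min_eq_right (by omega)]
    refine ⟨fun t => t ^ (2 * (k + 1)) * A + t ^ (k + 1) * B + C, ?_, ?_, fun t ht => ?_⟩
    · fun_prop
    · simpa using hC
    · show A + t ^ p * B + t ^ (2 * p) * C
        = t ^ (2 * p) * (t ^ (2 * (k + 1)) * A + t ^ (k + 1) * B + C)
      have e1 : t ^ (2 * p) * t ^ (2 * (k + 1)) = 1 := by
        rw [← zpow_natCast t (2 * (k + 1)), ← zpow_add₀ ht, hk]
        have : 2 * -((k : ℤ) + 1) + ((2 * (k + 1) : ℕ) : ℤ) = 0 := by push_cast; ring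
        rw [this, zpow_zero]
      have e2 : t ^ (2 * p) * t ^ (k + 1) = t ^ p := by
        rw [← zpow_natCast t (k + 1), ← zpow_add₀ ht, hk]
        congr 1
        push_cast
        ring
      rw [mul_add, mul_add, ← mul_assoc, ← mul_assoc, e1, e2]
      ring
  · obtain ⟨k, hk⟩ : ∃ k : ℕ, p = (k : ℤ) + 1 := ⟨(p - 1).toNat, by omega⟩
    rw [min_eq_left (by omega)]
    refine ⟨fun t => A + t ^ (k + 1) * B + t ^ (2 * (k + 1)) * C, ?_, ?_, fun t ht => ?_⟩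
    · fun_prop
    · simpa using hA
    · show A + t ^ p * B + t ^ (2 * p) * C
        = t ^ (0 : ℤ) * (A + t ^ (k + 1) * B + t ^ (2 * (k + 1)) * C)
      have e1 : t ^ (2 * p) = t ^ (2 * (k + 1)) := by
        rw [← zpow_natCast t (2 * (k + 1)), hk]
        push_cast
        rfl
      have e2 : t ^ p = t ^ (k + 1) := by
        rw [← zpow_natCast t (k + 1), hk]
        push_cast
        rfl
      rw [zpow_zero, one_mul, e1, e2]

theorem algB_ord (a b u v u₁ v₁ : ℂ) (p x y : ℤ) (hu : u ≠ 0) (hv : v ≠ 0) (hu₁ : u₁ ≠ 0)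
    (hv₁ : v₁ ≠ 0) (huv : u ≠ v) (hv1 : v₁ ≠ 1) (huv₁ : u₁ ≠ v₁) (hp : p ≠ 0)
    (hA : b * v - a * u ≠ 0)
    (H : ∀ t : ℂ, t ≠ 0 →
      Pool.Agent.Q72.DS.Rel a b (t ^ p * u) (t ^ p * v) (t ^ x * u₁) (t ^ y * v₁)) :
    x + min 0 y + p = min x y + min 0 (2 * p) := by
  have hsub : u - v ≠ 0 := sub_ne_zero.2 huv
  have o1 : Od (fun t => ((t ^ x * u₁) * (t ^ (0 : ℤ) * 1 + t ^ y * (-v₁))) *
      (t ^ p * (u - v) ^ 2)) (x + min 0 y + p) := by
    refine ((Od.mono hu₁ x).mul (Od.bin 0 y one_ne_zero (neg_ne_zero.2 hv₁) ?_)).mul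
      (Od.mono (pow_ne_zero 2 hsub) p)
    intro _
    rw [← sub_eq_add_neg]
    exact sub_ne_zero.2 (Ne.symm hv1)
  have o2 : Od (fun t => (t ^ x * u₁ + t ^ y * (-v₁)) * ((b * v - a * u) +
      t ^ p * (u * (u - v) + a * u * v - b * u * v) + t ^ (2 * p) * (-(u * v * (u - v)))))
      (min x y + min 0 (2 * p)) := by
    refine (Od.bin x y hu₁ (neg_ne_zero.2 hv₁) ?_).mul
      (Od.tri p hp hA (neg_ne_zero.2 (mul_ne_zero (mul_ne_zero hu hv) hsub)))
    intro _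
    rw [← sub_eq_add_neg]
    exact sub_ne_zero.2 huv₁
  refine Od.unique o2 ?_
  obtain ⟨g, hg, hg0, hgf⟩ := o1
  refine ⟨g, hg, hg0, fun t ht => ?_⟩
  rw [← hgf t ht]
  have h1 := H t ht
  unfold Pool.Agent.Q72.DS.Rel at h1
  have h2 : t ^ (2 * p) = t ^ p * t ^ p := by rw [two_mul, zpow_add₀ ht]
  have h3 : t ^ p ≠ 0 := zpow_ne_zero _ ht
  show (t ^ x * u₁ + t ^ y * (-v₁)) * ((b * v - a * u) +
      t ^ p * (u * (u - v) + a * u * v - b * u * v) + t ^ (2 * p) * (-(u * v * (u - v))))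
      = ((t ^ x * u₁) * (t ^ (0 : ℤ) * 1 + t ^ y * (-v₁))) * (t ^ p * (u - v) ^ 2)
  rw [h2, zpow_zero]
  apply mul_left_cancel₀ h3
  linear_combination -h1

theorem algB : Pool.Agent.Q72.DS.S_algB := by
  intro a b u v u₁ v₁ p x y hu hv hu₁ hv₁ huv hv1 huv₁ hp H
  by_contra hne
  have hA : b * v - a * u ≠ 0 := sub_ne_zero.2 (Ne.symm hne)
  have h1 := algB_ord a b u v u₁ v₁ p x y hu hv hu₁ hv₁ huv hv1 huv₁ hp hA H
  have h2 := algB_ord a b u v u₁ v₁ (-p) (-x) (-y) hu hv hu₁ hv₁ huv hv1 huv₁ (neg_ne_zero.2 hp) hA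
    (by
      intro t ht
      have := H t⁻¹ (inv_ne_zero ht)
      simpa [zpow_neg, inv_zpow] using this)
  omega

theorem algC1_aux (X X₁ ω : ℂ) (n : ℕ) (δ : ℤ) (d₁ : ℕ) (hX : X ≠ 0) (hω : ω ≠ 0)
    (hn : 0 < n) (hδ : δ ≠ 0) :
    ¬ ∀ t : ℂ, t ≠ 0 → ∑ j ∈ Finset.Icc 1 n, (t ^ δ * X) ^ j
      - ∑ j ∈ Finset.Icc 1 n, (j : ℂ) * ω * ((t ^ δ * X)⁻¹) ^ j
      - ∑ j ∈ Finset.Icc 1 n, (t ^ (d₁ : ℤ) * X₁) ^ j = 0 := by
  intro H
  rcases lt_or_gt_of_ne hδ with h | h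
  · obtain ⟨k, hk⟩ : ∃ k : ℕ, δ = -((k : ℤ) + 1) := ⟨(-δ - 1).toNat, by omega⟩
    have h1 : ∀ t : ℂ, t ≠ 0 → ∑ j ∈ Finset.Icc 1 n, t ^ ((k + 1) * (n - j)) * X ^ j
        - t ^ ((k + 1) * n) * ∑ j ∈ Finset.Icc 1 n, (j : ℂ) * ω * (t ^ (k + 1) * X⁻¹) ^ j
        - t ^ ((k + 1) * n) * ∑ j ∈ Finset.Icc 1 n, (t ^ d₁ * X₁) ^ j = 0 := by
      intro t ht
      have e0 := H t ht
      have e1 : t ^ δ = (t ^ (k + 1))⁻¹ := by
        rw [hk, zpow_neg]
        norm_cast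
      have e2 : ∑ j ∈ Finset.Icc 1 n, t ^ ((k + 1) * (n - j)) * X ^ j
          = t ^ ((k + 1) * n) * ∑ j ∈ Finset.Icc 1 n, (t ^ δ * X) ^ j := by
        rw [Finset.mul_sum]
        refine Finset.sum_congr rfl fun j hj => ?_
        have hj' : j ≤ n := (Finset.mem_Icc.1 hj).2
        have e3 : t ^ ((k + 1) * n) = t ^ ((k + 1) * (n - j)) * (t ^ (k + 1)) ^ j := by
          rw [← pow_mul, ← pow_add, ← Nat.mul_add, Nat.sub_add_cancel hj']
        have e4 : (t ^ (k + 1)) ^ j ≠ 0 := pow_ne_zero _ (pow_ne_zero _ ht)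
        rw [e1, e3, mul_pow, inv_pow]
        field_simp
      have e5 : ∀ j : ℕ, (t ^ (k + 1) * X⁻¹) ^ j = ((t ^ δ * X)⁻¹) ^ j := by
        intro j
        rw [e1, mul_inv, inv_inv]
      simp only [e5, e2]
      rw [zpow_natCast] at e0
      linear_combination t ^ ((k + 1) * n) * e0
    have h2 := zero_of_ne (f := fun t : ℂ => ∑ j ∈ Finset.Icc 1 n, t ^ ((k + 1) * (n - j)) * X ^ j
        - t ^ ((k + 1) * n) * ∑ j ∈ Finset.Icc 1 n, (j : ℂ) * ω * (t ^ (k + 1) * X⁻¹) ^ j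
        - t ^ ((k + 1) * n) * ∑ j ∈ Finset.Icc 1 n, (t ^ d₁ * X₁) ^ j) (by fun_prop) h1
    have e6 : (0 : ℂ) ^ ((k + 1) * n) = 0 := zero_pow (by positivity)
    simp only [e6, zero_mul, sub_zero] at h2
    rw [Finset.sum_eq_single_of_mem n (Finset.mem_Icc.2 ⟨hn, le_rfl⟩)] at h2
    · simp at h2
      exact hX h2.1
    · intro j hj hne
      have hj' : j < n := lt_of_le_of_ne (Finset.mem_Icc.1 hj).2 hne
      have : (k + 1) * (n - j) ≠ 0 := by
        have : 0 < n - j := by omega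
        positivity
      rw [zero_pow this, zero_mul]
  · obtain ⟨k, hk⟩ : ∃ k : ℕ, δ = (k : ℤ) + 1 := ⟨(δ - 1).toNat, by omega⟩
    have h1 : ∀ t : ℂ, t ≠ 0 → t ^ ((k + 1) * n) * ∑ j ∈ Finset.Icc 1 n, (t ^ (k + 1) * X) ^ j
        - ∑ j ∈ Finset.Icc 1 n, (j : ℂ) * ω * (t ^ ((k + 1) * (n - j)) * (X⁻¹) ^ j)
        - t ^ ((k + 1) * n) * ∑ j ∈ Finset.Icc 1 n, (t ^ d₁ * X₁) ^ j = 0 := by
      intro t ht
      have e0 := H t ht
      have e1 : t ^ δ = t ^ (k + 1) := by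
        rw [hk]
        norm_cast
      have e2 : ∑ j ∈ Finset.Icc 1 n, (j : ℂ) * ω * (t ^ ((k + 1) * (n - j)) * (X⁻¹) ^ j)
          = t ^ ((k + 1) * n) * ∑ j ∈ Finset.Icc 1 n, (j : ℂ) * ω * ((t ^ δ * X)⁻¹) ^ j := by
        rw [Finset.mul_sum]
        refine Finset.sum_congr rfl fun j hj => ?_
        have hj' : j ≤ n := (Finset.mem_Icc.1 hj).2
        have e3 : t ^ ((k + 1) * n) = t ^ ((k + 1) * (n - j)) * (t ^ (k + 1)) ^ j := by
          rw [← pow_mul, ← pow_add, ← Nat.mul_add, Nat.sub_add_cancel hj']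
        have e4 : (t ^ (k + 1)) ^ j ≠ 0 := pow_ne_zero _ (pow_ne_zero _ ht)
        rw [e1, e3, mul_inv, mul_pow, inv_pow (t ^ (k + 1))]
        field_simp
      rw [e2]
      rw [zpow_natCast] at e0
      rw [← e1]
      linear_combination t ^ ((k + 1) * n) * e0
    have h2 := zero_of_ne (f := fun t : ℂ =>
        t ^ ((k + 1) * n) * ∑ j ∈ Finset.Icc 1 n, (t ^ (k + 1) * X) ^ j
        - ∑ j ∈ Finset.Icc 1 n, (j : ℂ) * ω * (t ^ ((k + 1) * (n - j)) * (X⁻¹) ^ j)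
        - t ^ ((k + 1) * n) * ∑ j ∈ Finset.Icc 1 n, (t ^ d₁ * X₁) ^ j) (by fun_prop) h1
    have e6 : (0 : ℂ) ^ ((k + 1) * n) = 0 := zero_pow (by positivity)
    simp only [e6, zero_mul, sub_zero, zero_sub, neg_eq_zero] at h2
    rw [Finset.sum_eq_single_of_mem n (Finset.mem_Icc.2 ⟨hn, le_rfl⟩)] at h2
    · simp [hω, hn.ne', hX] at h2
    · intro j hj hne
      have hj' : j < n := lt_of_le_of_ne (Finset.mem_Icc.1 hj).2 hne
      have : (k + 1) * (n - j) ≠ 0 := by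
        have : 0 < n - j := by omega
        positivity
      rw [zero_pow this, zero_mul, mul_zero]

theorem two_zpow_inj {x y : ℤ} (h : (2 : ℂ) ^ x = 2 ^ y) : x = y := by
  have h1 : (((2 : ℝ) ^ x : ℝ) : ℂ) = (((2 : ℝ) ^ y : ℝ) : ℂ) := by
    push_cast
    exact h
  have h2 : (2 : ℝ) ^ x = (2 : ℝ) ^ y := by exact_mod_cast h1
  exact zpow_right_injective₀ (by norm_num) (by norm_num) h2

theorem algC : Pool.Agent.Q72.DS.S_algC := by
  refine ⟨?_, ?_⟩
  · intro X X₁ ω n δ δ₁ hX _ hω hn hδ H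
    rcases le_total 0 δ₁ with h | h
    · obtain ⟨d₁, hd⟩ := Int.eq_ofNat_of_zero_le h
      subst hd
      exact algC1_aux X X₁ ω n δ d₁ hX hω hn hδ H
    · obtain ⟨d₁, hd⟩ := Int.eq_ofNat_of_zero_le (neg_nonneg.2 h)
      refine algC1_aux X X₁ ω n (-δ) d₁ hX hω hn (neg_ne_zero.2 hδ) ?_
      intro t ht
      have := H t⁻¹ (inv_ne_zero ht)
      rw [inv_zpow', inv_zpow', hd] at this
      exact this
  · intro φ u₁ v₁ x y hu hv hxy H
    set α : ℂ := 2 ^ (-y) with hα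
    set β : ℂ := 2 ^ (-x) with hβ
    have h2 : (2 : ℂ) ≠ 0 := two_ne_zero
    have key : ∀ t : ℂ, t ≠ 0 → (φ * u₁ - u₁) * t ^ (-y) - φ * v₁ * t ^ (-x) + u₁ * v₁ = 0 := by
      intro t ht
      have h3 := H t ht
      have h4 : t ^ x * t ^ (-x) = 1 := by rw [← zpow_add₀ ht]; simp
      have h5 : t ^ y * t ^ (-y) = 1 := by rw [← zpow_add₀ ht]; simp
      linear_combination (t ^ (-x) * t ^ (-y)) * h3 - (φ * u₁ - u₁) * t ^ (-y) * h4
        + φ * v₁ * t ^ (-x) * h5 - (u₁ * v₁) * (t ^ y * t ^ (-y)) * h4 - u₁ * v₁ * h5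
    have k1 := key 1 one_ne_zero
    have k2 := key 2 h2
    have k3 := key (2 * 2) (mul_ne_zero h2 h2)
    simp only [one_zpow, mul_one] at k1
    rw [← hα, ← hβ] at k2
    rw [mul_zpow, mul_zpow, ← hα, ← hβ] at k3
    have m1 : (φ * u₁ - u₁) * ((α - 1) * (α - β)) = 0 := by
      linear_combination k3 - k2 - β * (k2 - k1)
    have hc : u₁ * v₁ ≠ 0 := mul_ne_zero hu hv
    rcases mul_eq_zero.1 m1 with ha | hm
    · -- the first coefficient is zero
      have hφ : φ = 1 := by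
        have : u₁ * (φ - 1) = 0 := by linear_combination ha
        exact sub_eq_zero.1 ((mul_eq_zero.1 this).resolve_left hu)
      subst hφ
      left
      have : v₁ * (u₁ - 1) = 0 := by linear_combination k1
      exact sub_eq_zero.1 ((mul_eq_zero.1 this).resolve_left hv)
    · rcases mul_eq_zero.1 hm with h | h
      · -- y = 0
        have hy : y = 0 := by
          have h6 : (2 : ℂ) ^ (-y) = 2 ^ (0 : ℤ) := by
            rw [← hα, zpow_zero]
            exact sub_eq_zero.1 h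
          have := two_zpow_inj h6
          omega
        have hx : x ≠ 0 := fun hx => hxy ⟨hx, hy⟩
        have hβ1 : β - 1 ≠ 0 := by
          intro h7
          have h6 : (2 : ℂ) ^ (-x) = 2 ^ (0 : ℤ) := by
            rw [← hβ, zpow_zero]
            exact sub_eq_zero.1 h7
          have := two_zpow_inj h6
          omega
        right
        have h8 : (φ * v₁) * (β - 1) = 0 := by
          linear_combination k1 - k2 + (φ * u₁ - u₁) * h
        exact (mul_eq_zero.1 ((mul_eq_zero.1 h8).resolve_right hβ1)).resolve_right hv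
      · -- x = y
        have hxy2 : x = y := by
          have h6 : (2 : ℂ) ^ (-y) = 2 ^ (-x) := by
            rw [← hα, ← hβ]
            exact sub_eq_zero.1 h
          have := two_zpow_inj h6
          omega
        have hα1 : α - 1 ≠ 0 := by
          intro h7
          have h6 : (2 : ℂ) ^ (-y) = 2 ^ (0 : ℤ) := by
            rw [← hα, zpow_zero]
            exact sub_eq_zero.1 h7
          have := two_zpow_inj h6
          exact hxy ⟨by omega, by omega⟩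
        exfalso
        have h8 : (φ * u₁ - u₁ - φ * v₁) * (α - 1) = 0 := by
          linear_combination k2 - k1 - φ * v₁ * h
        have h9 := (mul_eq_zero.1 h8).resolve_right hα1
        apply hc
        linear_combination k1 - h9

end Pool.Agent.Q121.DS
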