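import Pool.Agent.Q72.DS.Stm

/-!
Project DS (helper72), jobs GROW and BASIC.
-/

set_option autoImplicit false

namespace Pool.Agent.Q121.DS

open Complex Filter Topology Metric Real Set MeasureTheory
open Pool.Agent.Q72.DS
open Pool.Agent.Helper160.Nev (proxInf)

theorem ev_FF {P : ℝ → Prop} : (∀ᶠ r in FF, P r) ↔ volume ({r | ¬ P r} ∩ Ici (1 : ℝ)) < ⊤ := by
  unfold FF
  rw [Measure.eventually_cofinite, Measure.restrict_apply' measurableSet_Ici]

theorem gauge_tendsto {T : ℝ → ℝ} (hT : Gauge T) : Tendsto T atTop atTop := by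
  obtain ⟨c, hc, h⟩ := hT.lin
  exact tendsto_atTop_mono' _ h (tendsto_id.const_mul_atTop hc)

theorem grow : S_grow := by
  intro T hT K
  rw [ev_FF]
  set s : ℕ → ℝ := fun j => sSup {r | 1 ≤ r ∧ T r < 2 ^ (j + 1)} with hs
  have hbdd : ∀ j : ℕ, BddAbove {r | 1 ≤ r ∧ T r < 2 ^ (j + 1)} := by
    intro j
    obtain ⟨a, ha⟩ := eventually_atTop.1 ((gauge_tendsto hT).eventually_ge_atTop (2 ^ (j + 1)))
    refine ⟨a, ?_⟩
    rintro r ⟨_, hr⟩
    by_contra hlt
    exact absurd hr (not_lt.2 (ha r (le_of_not_ge hlt)))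
  have hcov : {r | ¬ T (r + K / T r) ≤ 2 * T r} ∩ Ici (1 : ℝ)
      ⊆ ⋃ j : ℕ, Icc (s j - K / 2 ^ j) (s j) := by
    rintro r ⟨hr, hr1⟩
    have hr' : 2 * T r < T (r + K / T r) := not_le.1 hr
    have hr1' : (1 : ℝ) ≤ r := hr1
    have hT1 : 1 ≤ T r := hT.one_le r hr1'
    obtain ⟨j, hj1, hj2⟩ := exists_nat_pow_near hT1 (by norm_num : (1 : ℝ) < 2)
    rw [mem_iUnion]
    have hK : (0 : ℝ) ≤ K := Nat.cast_nonneg K
    have h2j : (0 : ℝ) < 2 ^ j := by positivity
    refine ⟨j, ?_, ?_⟩
    · have hle : s j ≤ r + K / 2 ^ j := by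
        refine csSup_le ⟨r, hr1', hj2⟩ ?_
        rintro x ⟨hx1, hx2⟩
        by_contra hlt
        have hlt' : r + K / 2 ^ j < x := not_le.1 hlt
        have h1 : (K : ℝ) / T r ≤ K / 2 ^ j := div_le_div_of_nonneg_left hK h2j hj1
        have h0 : 0 ≤ (K : ℝ) / T r := by positivity
        have h2 : T (r + K / T r) ≤ T x := by
          refine hT.mono ?_ hx1 (by linarith)
          show (1 : ℝ) ≤ r + K / T r
          linarith
        have h3 : (2 : ℝ) ^ (j + 1) ≤ 2 * T r := by
          rw [pow_succ]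
          linarith
        linarith
      linarith
    · exact le_csSup (hbdd j) ⟨hr1', hj2⟩
  refine lt_of_le_of_lt (measure_mono hcov) ?_
  refine lt_of_le_of_lt (measure_iUnion_le _) ?_
  have h1 : ∀ j : ℕ, volume (Icc (s j - K / 2 ^ j) (s j)) = ENNReal.ofReal (K * (1 / 2) ^ j) := by
    intro j
    rw [Real.volume_Icc]
    congr 1
    rw [one_div, inv_pow]
    ring
  simp only [h1]
  have hsum : Summable (fun j : ℕ => (K : ℝ) * (1 / 2) ^ j) :=
    (summable_geometric_of_lt_one (by norm_num) (by norm_num)).mul_left _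
  exact lt_top_iff_ne_top.2 hsum.tsum_ofReal_ne_top

theorem FF_le : FF ≤ atTop := by
  intro S hS
  obtain ⟨a, ha⟩ := mem_atTop_sets.1 hS
  have h1 : ∀ᶠ r in FF, a ≤ r := by
    rw [ev_FF]
    refine lt_of_le_of_lt (measure_mono (t := Icc 1 a) ?_) ?_
    · rintro r ⟨h1, h2⟩
      exact ⟨h2, (not_le.1 h1).le⟩
    · rw [Real.volume_Icc]
      exact ENNReal.ofReal_lt_top
  filter_upwards [h1] with r hr
  exact ha r hr

theorem FF_neBot : FF.NeBot := by
  rw [Filter.neBot_iff]
  intro h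
  have h1 : ∀ᶠ r in FF, False := by
    rw [h]
    trivial
  rw [ev_FF] at h1
  simp at h1

theorem log_small (δ : ℝ) (hδ : 0 < δ) : ∀ᶠ x : ℝ in atTop, Real.log (1 + x) ≤ δ * x := by
  have h1 := (Real.isLittleO_log_id_atTop.def (half_pos hδ))
  have h2 : Tendsto (fun x : ℝ => 1 + x) atTop atTop := tendsto_atTop_add_const_left _ _ tendsto_id
  have h3 := h2.eventually h1
  filter_upwards [h3, eventually_ge_atTop 1] with x hx hx1
  have h4 : Real.log (1 + x) ≤ ‖Real.log (1 + x)‖ := Real.le_norm_self _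
  have h5 : ‖id (1 + x)‖ = 1 + x := by
    rw [id, Real.norm_eq_abs, abs_of_nonneg (by linarith)]
  rw [h5] at hx
  nlinarith

theorem basic : S_basic := by
  refine ⟨FF_neBot, FF_le, fun T hT => ⟨fun A ε hε => ?_, fun A => ?_⟩⟩
  · apply FF_le
    obtain ⟨c, hc, hlin⟩ := hT.lin
    have hT' := gauge_tendsto hT
    set B : ℝ := |A| + 1 with hB
    have hB0 : 0 < B := by positivity
    set δ : ℝ := ε / (2 * B * (1 / c + 1)) with hδ
    have hδ0 : 0 < δ := by positivity
    filter_upwards [hlin, log_small δ hδ0, hT'.eventually (log_small δ hδ0),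
      hT'.eventually_ge_atTop (2 * B / ε), hT'.eventually_ge_atTop 0, eventually_ge_atTop 0]
      with r h1 h2 h3 h4 h5 h6
    have e1 : r ≤ T r / c := by
      rw [le_div_iff₀ hc]
      linarith
    have e2 : B ≤ (ε / 2) * T r := by
      rw [div_le_iff₀ hε] at h4
      linarith
    have l1 : 0 ≤ Real.log (1 + r) := Real.log_nonneg (by linarith)
    have l2 : 0 ≤ Real.log (1 + T r) := Real.log_nonneg (by linarith)
    have e3 : A * (1 + Real.log (1 + r) + Real.log (1 + T r))
        ≤ B * (1 + Real.log (1 + r) + Real.log (1 + T r)) := by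
      apply mul_le_mul_of_nonneg_right
      · have := le_abs_self A
        linarith
      · linarith
    have e4 : Real.log (1 + r) + Real.log (1 + T r) ≤ δ * ((1 / c + 1) * T r) := by
      have : δ * r ≤ δ * (T r / c) := mul_le_mul_of_nonneg_left e1 hδ0.le
      calc Real.log (1 + r) + Real.log (1 + T r) ≤ δ * r + δ * T r := add_le_add h2 h3
        _ ≤ δ * (T r / c) + δ * T r := by linarith
        _ = δ * ((1 / c + 1) * T r) := by ring
    have e5 : B * (δ * ((1 / c + 1) * T r)) = (ε / 2) * T r := by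
      rw [hδ]
      have : (1 / c + 1) ≠ 0 := by positivity
      field_simp
    have e6 := mul_le_mul_of_nonneg_left e4 hB0.le
    rw [e5] at e6
    calc A * (1 + Real.log (1 + r) + Real.log (1 + T r))
        ≤ B * (1 + Real.log (1 + r) + Real.log (1 + T r)) := e3
      _ = B + B * (Real.log (1 + r) + Real.log (1 + T r)) := by ring
      _ ≤ (ε / 2) * T r + (ε / 2) * T r := add_le_add e2 e6
      _ = ε * T r := by ring
  · exact FF_le ((gauge_tendsto hT).eventually_ge_atTop A)

end Pool.Agent.Q121.DS
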