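import Pool.Agent.Q72.DS.Stm

/-!
Project DS (helper72), jobs MONO and JEN.
-/

set_option autoImplicit false

namespace Pool.Agent.Q121.DS

open Complex Filter Topology Metric Real Set
open Pool.Agent.Q72.DS
open Pool.Agent.Helper160.Nev (proxInf)

theorem diff_mero {c : ℂ → ℂ} (hc : Differentiable ℂ c) : Meromorphic c :=
  fun z => (hc.analyticAt z).meromorphicAt

theorem char_eq {c : ℂ → ℂ} (hc : Differentiable ℂ c) (r : ℝ) :
    ValueDistribution.characteristic c ⊤ r = proxInf c r := by
  have h0 : Meromorphic (0 : ℂ → ℂ) := fun z => MeromorphicAt.const 0 z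
  have h1 : ValueDistribution.logCounting c ⊤ = 0 := by
    have := ValueDistribution.logCounting_add_analyticOn (f := (0 : ℂ → ℂ)) (g := c) h0
      (hc.differentiableOn.analyticOn isOpen_univ)
    rw [zero_add] at this
    rw [this]
    simp
  unfold ValueDistribution.characteristic
  rw [h1, add_zero, ValueDistribution.proximity_top]
  rfl

theorem mono : S_mono := by
  intro c hc r R hr hrR
  rw [← char_eq hc, ← char_eq hc]
  exact ValueDistribution.characteristic_monotoneOn (diff_mero hc) hr (lt_of_lt_of_le hr hrR) hrR

theorem jen : S_jen := by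
  intro c hc _
  refine ⟨-Real.log ‖meromorphicTrailingCoeffAt c 0‖, fun r hr => ?_⟩
  have hr0 : r ≠ 0 := by linarith
  have h1 := ValueDistribution.characteristic_sub_characteristic_inv_of_ne_zero (diff_mero hc) hr0
  rw [char_eq hc] at h1
  have h2 : ValueDistribution.characteristic c⁻¹ ⊤ r
      = proxInf (fun z => (c z)⁻¹) r + ValueDistribution.logCounting c⁻¹ ⊤ r := by
    unfold ValueDistribution.characteristic
    rw [Pi.add_apply, ValueDistribution.proximity_top]
    rfl
  have h3 : 0 ≤ ValueDistribution.logCounting c⁻¹ ⊤ r := ValueDistribution.logCounting_nonneg hr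
  linarith

end Pool.Agent.Q121.DS
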