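import Pool.Agent.Q72.DS.Stm

/-!
Project DS (helper72), job QUOT.
-/

set_option autoImplicit false

namespace Pool.Agent.Q121.DS

open Complex Filter Topology Metric Real Set
open Pool.Agent.Q72.DS

theorem ord_top_iff {F : ℂ → ℂ} (hF : Differentiable ℂ F) :
    (∃ z, meromorphicOrderAt F z = ⊤) → ∀ z, F z = 0 := by
  rintro ⟨z, hz⟩
  rw [meromorphicOrderAt_eq_top_iff] at hz
  have h1 : ∃ᶠ w in 𝓝[≠] z, F w = 0 := hz.frequently
  have h2 := (hF.differentiableOn.analyticOnNhd isOpen_univ : AnalyticOnNhd ℂ F univ)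
    |>.eqOn_zero_of_preconnected_of_frequently_eq_zero isPreconnected_univ (mem_univ z) h1
  intro w
  exact h2 (mem_univ w)

theorem quot : S_quot := by
  intro F G hF hG hord
  by_cases hG0 : ∃ z, meromorphicOrderAt G z = ⊤
  · have hG1 := ord_top_iff hG hG0
    obtain ⟨z, hz⟩ := hG0
    have h1 := hord z (Or.inr (by rw [hz]; exact WithTop.coe_lt_top 0))
    have hF1 := ord_top_iff hF ⟨z, h1.trans hz⟩
    refine ⟨fun _ => 1, differentiable_const _, fun _ => one_ne_zero, fun z => ?_⟩
    rw [hF1, hG1, mul_zero]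
  · push Not at hG0
    have hGm : MeromorphicOn G univ := fun z _ => (hG.analyticAt z).meromorphicAt
    have hFm : MeromorphicOn F univ := fun z _ => (hF.analyticAt z).meromorphicAt
    have hFo : ∀ z, 0 ≤ meromorphicOrderAt F z := fun z => (hF.analyticAt z).meromorphicOrderAt_nonneg
    have hGo : ∀ z, 0 ≤ meromorphicOrderAt G z := fun z => (hG.analyticAt z).meromorphicOrderAt_nonneg
    have heq : ∀ z, meromorphicOrderAt F z = meromorphicOrderAt G z := by
      intro z
      by_cases h : 0 < meromorphicOrderAt F z ∨ 0 < meromorphicOrderAt G z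
      · exact hord z h
      · push Not at h
        rw [le_antisymm h.1 (hFo z), le_antisymm h.2 (hGo z)]
    set h : ℂ → ℂ := fun z => F z * (G z)⁻¹ with hh
    have hm : MeromorphicOn h univ := hFm.mul hGm.inv
    have ho : ∀ z, meromorphicOrderAt h z = 0 := by
      intro z
      have h1 : meromorphicOrderAt h z = meromorphicOrderAt F z + meromorphicOrderAt G⁻¹ z :=
        meromorphicOrderAt_mul (hFm z (mem_univ z)) (hGm z (mem_univ z)).inv
      rw [h1, meromorphicOrderAt_inv, heq]
      have h2 := hG0 z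
      lift meromorphicOrderAt G z to ℤ using h2 with n hn
      norm_cast
      ring
    set u := toMeromorphicNFOn h univ with hu
    have huNF : MeromorphicNFOn u univ := meromorphicNFOn_toMeromorphicNFOn h univ
    have huo : ∀ z, meromorphicOrderAt u z = 0 := by
      intro z
      rw [hu, meromorphicOrderAt_toMeromorphicNFOn hm (mem_univ z), ho]
    have hua : ∀ z, AnalyticAt ℂ u z := by
      intro z
      rw [← (huNF (mem_univ z)).meromorphicOrderAt_nonneg_iff_analyticAt, huo]
    refine ⟨u, fun z => (hua z).differentiableAt, fun z => ?_, fun z => ?_⟩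
    · exact (huNF (mem_univ z)).meromorphicOrderAt_eq_zero_iff.1 (huo z)
    · have h1 : h =ᶠ[𝓝[≠] z] u := (hm.toMeromorphicNFOn_eq_self_on_nhdsNE (mem_univ z)).symm
      have h2 : ∀ᶠ w in 𝓝[≠] z, G w ≠ 0 :=
        (meromorphicOrderAt_ne_top_iff_eventually_ne_zero (hGm z (mem_univ z))).1 (hG0 z)
      have h3 : F =ᶠ[𝓝[≠] z] fun w => u w * G w := by
        filter_upwards [h1, h2] with w hw1 hw2
        rw [← hw1, hh]
        show F w = F w * (G w)⁻¹ * G w
        rw [mul_assoc, inv_mul_cancel₀ hw2, mul_one]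
      have h4 : Tendsto F (𝓝[≠] z) (𝓝 (F z)) :=
        (hF z).continuousAt.tendsto.mono_left nhdsWithin_le_nhds
      have h5 : Tendsto (fun w => u w * G w) (𝓝[≠] z) (𝓝 (u z * G z)) :=
        ((hua z).continuousAt.mul (hG z).continuousAt).tendsto.mono_left nhdsWithin_le_nhds
      exact tendsto_nhds_unique (h4.congr' h3) h5

end Pool.Agent.Q121.DS
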