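import Pool.Agent.Q72.DS.Stm
import Pool.Agent.Q121.DS.MJ

/-!
Project DS (helper72), jobs RING, DIV and UNIT.
-/

set_option autoImplicit false

namespace Pool.Agent.Q121.DS

open Complex Filter Topology Metric Real Set
open Pool.Agent.Q72.DS
open Pool.Agent.Helper160.Nev (proxInf)

theorem ci {c : ℂ → ℂ} (hc : Differentiable ℂ c) (r : ℝ) :
    CircleIntegrable (fun z => log⁺ ‖c z‖) 0 r :=
  MeromorphicOn.circleIntegrable_posLog_norm fun z _ => diff_mero hc z

theorem ci_inv {c : ℂ → ℂ} (hc : Differentiable ℂ c) (r : ℝ) :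
    CircleIntegrable (fun z => log⁺ ‖(c z)⁻¹‖) 0 r :=
  MeromorphicOn.circleIntegrable_posLog_norm fun z _ => (diff_mero hc z).inv

theorem px_nonneg (c : ℂ → ℂ) (r : ℝ) : 0 ≤ proxInf c r :=
  circleAverage_nonneg_of_nonneg fun _ _ => posLog_nonneg

theorem px_const (k : ℂ) (r : ℝ) : proxInf (fun _ => k) r = log⁺ ‖k‖ :=
  circleAverage_const _ _ _

theorem px_add {c d : ℂ → ℂ} (hc : Differentiable ℂ c) (hd : Differentiable ℂ d) (r : ℝ) :
    proxInf (fun z => c z + d z) r ≤ proxInf c r + proxInf d r + Real.log 2 := by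
  unfold proxInf
  have hint : CircleIntegrable (fun z => log⁺ ‖c z‖ + log⁺ ‖d z‖) 0 r := (ci hc r).add (ci hd r)
  have h1 : circleAverage (fun z => log⁺ ‖c z + d z‖) 0 r
      ≤ circleAverage (fun z => (log⁺ ‖c z‖ + log⁺ ‖d z‖) + Real.log 2) 0 r := by
    apply circleAverage_mono (ci (hc.add hd) r) (hint.add (circleIntegrable_const _ _ _))
    intro z _
    show log⁺ ‖c z + d z‖ ≤ (log⁺ ‖c z‖ + log⁺ ‖d z‖) + Real.log 2
    exact posLog_norm_add_le (c z) (d z)
  rw [circleAverage_fun_add hint (circleIntegrable_const _ _ _),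
    circleAverage_fun_add (ci hc r) (ci hd r), circleAverage_const] at h1
  exact h1

theorem px_mul {c d : ℂ → ℂ} (hc : Differentiable ℂ c) (hd : Differentiable ℂ d) (r : ℝ) :
    proxInf (fun z => c z * d z) r ≤ proxInf c r + proxInf d r := by
  unfold proxInf
  have h1 : circleAverage (fun z => log⁺ ‖c z * d z‖) 0 r
      ≤ circleAverage (fun z => log⁺ ‖c z‖ + log⁺ ‖d z‖) 0 r := by
    apply circleAverage_mono (ci (hc.mul hd) r) ((ci hc r).add (ci hd r))
    intro z _
    show log⁺ ‖c z * d z‖ ≤ log⁺ ‖c z‖ + log⁺ ‖d z‖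
    rw [norm_mul]
    exact posLog_mul
  rw [circleAverage_fun_add (ci hc r) (ci hd r)] at h1
  exact h1

theorem px_pow (c : ℂ → ℂ) (n : ℕ) (r : ℝ) :
    proxInf (fun z => c z ^ n) r = n * proxInf c r := by
  unfold proxInf
  have h1 : (fun z => log⁺ ‖c z ^ n‖) = fun z => (n : ℝ) * log⁺ ‖c z‖ := by
    funext z
    rw [norm_pow, posLog_pow]
  rw [h1]
  have := circleAverage_fun_smul (a := (n : ℝ)) (f := fun z => log⁺ ‖c z‖) (c := 0) (R := r)
  simpa [smul_eq_mul] using this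

/-- tame functions, with two summands -/
theorem tame_of_le {T : ℝ → ℝ} (hB : S_basic) (hT : Gauge T) {c d e : ℂ → ℂ} (A : ℝ)
    (hc : Tame T c) (hd : Tame T d)
    (h : ∀ r : ℝ, 1 ≤ r → proxInf e r ≤ proxInf c r + proxInf d r + A) : Tame T e := by
  intro K
  obtain ⟨p, hp⟩ := hc K
  obtain ⟨q, hq⟩ := hd K
  refine ⟨max p q + 2, ?_⟩
  have h1 : ∀ᶠ r in FF, 1 ≤ r := hB.2.1 (eventually_ge_atTop 1)
  filter_upwards [hp, hq, h1, (hB.2.2 T hT).2 2, (hB.2.2 T hT).2 (A)] with r hp hq hr hT2 hTA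
  have hTpos : 0 < T r := by linarith
  have hK : (0 : ℝ) ≤ K / T r := by positivity
  have h2 := h (r + K / T r) (by linarith)
  have h3 : T r ^ p ≤ T r ^ (max p q) := pow_le_pow_right₀ (by linarith) (le_max_left _ _)
  have h4 : T r ^ q ≤ T r ^ (max p q) := pow_le_pow_right₀ (by linarith) (le_max_right _ _)
  have h5 : 1 ≤ T r ^ (max p q) := one_le_pow₀ (by linarith)
  have h6 : A ≤ T r ^ (max p q) * T r := by nlinarith
  have h7 : 0 ≤ T r ^ (max p q) * ((T r - 2) * (T r + 1)) :=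
    mul_nonneg (by linarith) (mul_nonneg (by linarith) (by linarith))
  have h8 : T r ^ (max p q + 2) = T r ^ (max p q) * (T r * T r) := by rw [pow_add]; ring
  rw [h8]
  nlinarith

theorem small_of_le {T : ℝ → ℝ} (hB : S_basic) (hT : Gauge T) {c d e : ℂ → ℂ} (A : ℝ)
    (hc : ∀ ε : ℝ, 0 < ε → ∀ᶠ r in FF, proxInf c r ≤ ε * T r)
    (hd : ∀ ε : ℝ, 0 < ε → ∀ᶠ r in FF, proxInf d r ≤ ε * T r)
    (h : ∀ r : ℝ, 1 ≤ r → proxInf e r ≤ proxInf c r + proxInf d r + A) :
    ∀ ε : ℝ, 0 < ε → ∀ᶠ r in FF, proxInf e r ≤ ε * T r := by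
  intro ε hε
  have h1 : ∀ᶠ r in FF, 1 ≤ r := hB.2.1 (eventually_ge_atTop 1)
  filter_upwards [hc (ε / 3) (by positivity), hd (ε / 3) (by positivity), h1,
    (hB.2.2 T hT).2 (A / (ε / 3))] with r hc hd hr hA
  have h2 := h r hr
  rw [div_le_iff₀ (by positivity)] at hA
  linarith

theorem sm_const {T : ℝ → ℝ} (hB : S_basic) (hT : Gauge T) (k : ℂ) : Sm T (fun _ => k) := by
  refine ⟨differentiable_const _, fun K => ⟨1, ?_⟩, fun ε hε => ?_⟩
  · filter_upwards [(hB.2.2 T hT).2 (log⁺ ‖k‖)] with r hr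
    rw [px_const, pow_one]
    exact hr
  · filter_upwards [(hB.2.2 T hT).2 (log⁺ ‖k‖ / ε)] with r hr
    rw [px_const]
    rw [div_le_iff₀ hε] at hr
    linarith

theorem sm_mul {T : ℝ → ℝ} (hB : S_basic) (hT : Gauge T) {c d : ℂ → ℂ} (hc : Sm T c) (hd : Sm T d) :
    Sm T (fun z => c z * d z) := by
  have h : ∀ r : ℝ, 1 ≤ r → proxInf (fun z => c z * d z) r ≤ proxInf c r + proxInf d r + 0 := by
    intro r _
    rw [add_zero]
    exact px_mul hc.diff hd.diff r
  exact ⟨hc.diff.mul hd.diff, tame_of_le hB hT 0 hc.tame hd.tame h,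
    small_of_le hB hT 0 hc.small hd.small h⟩

theorem ring_ (hB : S_basic) : S_ring := by
  intro T hT
  refine ⟨sm_const hB hT, fun c d hc hd => ?_, fun c d hc hd => sm_mul hB hT hc hd⟩
  have h : ∀ r : ℝ, 1 ≤ r →
      proxInf (fun z => c z + d z) r ≤ proxInf c r + proxInf d r + Real.log 2 :=
    fun r _ => px_add hc.diff hd.diff r
  exact ⟨hc.diff.add hd.diff, tame_of_le hB hT _ hc.tame hd.tame h,
    small_of_le hB hT _ hc.small hd.small h⟩

theorem div_ (hB : S_basic) (hJ : S_jen) : S_div := by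
  intro T hT c d h hc hd hdne hh heq
  obtain ⟨K, hK⟩ := hJ d hd.diff hdne
  have key : ∀ r : ℝ, 1 ≤ r → proxInf h r ≤ proxInf c r + proxInf d r + K := by
    intro r hr
    have hr0 : r ≠ 0 := by linarith
    have h1 : proxInf h r ≤ circleAverage (fun z => log⁺ ‖c z‖ + log⁺ ‖(d z)⁻¹‖) 0 r := by
      unfold proxInf
      refine Pool.Agent.Helper160.Nev.circleAverage_mono_codiscrete hr0 (ci hh r)
        ((ci hc.diff r).add (ci_inv hd.diff r)) ?_
      have hcod : ∀ᶠ w in codiscreteWithin (sphere (0:ℂ) |r|), d w ≠ 0 := by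
        have hda : AnalyticOnNhd ℂ d univ := hd.diff.differentiableOn.analyticOnNhd isOpen_univ
        obtain ⟨z₀, hz₀⟩ := hdne
        have hloc : ∀ z, ∀ᶠ w in 𝓝[≠] z, d w ≠ 0 := by
          intro z
          rcases (hda z (mem_univ z)).eventually_eq_zero_or_eventually_ne_zero with h0 | h0
          · exfalso
            have h2 := hda.eqOn_zero_of_preconnected_of_eventuallyEq_zero isPreconnected_univ
              (mem_univ z) h0
            exact hz₀ (h2 (mem_univ z₀))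
          · exact h0
        refine mem_codiscreteWithin_iff_forall_mem_nhdsNE.2 fun x _ => ?_
        exact mem_of_superset (hloc x) subset_union_left
      filter_upwards [hcod] with w hw
      have h2 : h w = c w * (d w)⁻¹ := by
        rw [← heq w, mul_assoc, mul_inv_cancel₀ hw, mul_one]
      rw [h2, norm_mul]
      exact posLog_mul
    rw [circleAverage_fun_add (ci hc.diff r) (ci_inv hd.diff r)] at h1
    have h2 := hK r hr
    unfold proxInf at h1 h2 ⊢
    linarith
  exact ⟨hh, tame_of_le hB hT K hc.tame hd.tame key, small_of_le hB hT K hc.small hd.small key⟩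

theorem unit_ (hB : S_basic) (hJ : S_jen) (_h3 : S_ring) : S_unit := by
  intro T hT
  have hmul : ∀ h g : ℂ → ℂ, Un T h → Un T g → Un T (fun z => h z * g z) := by
    intro h g hh hg
    refine ⟨hh.diff.mul hg.diff, fun z => mul_ne_zero (hh.ne z) (hg.ne z),
      tame_of_le hB hT 0 hh.tame hg.tame fun r _ => ?_⟩
    rw [add_zero]
    exact px_mul hh.diff hg.diff r
  have hone : Un T (fun _ => (1 : ℂ)) :=
    ⟨differentiable_const _, fun _ => one_ne_zero, (sm_const hB hT 1).tame⟩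
  have hinvb : ∀ h : ℂ → ℂ, Differentiable ℂ h → (∀ z, h z ≠ 0) → ∃ K : ℝ, ∀ r : ℝ, 1 ≤ r →
      proxInf (fun z => (h z)⁻¹) r ≤ proxInf h r + proxInf (fun _ => (1 : ℂ)) r + K := by
    intro h hd hne
    obtain ⟨K, hK⟩ := hJ h hd ⟨0, hne 0⟩
    refine ⟨K, fun r hr => ?_⟩
    have := hK r hr
    have h2 := px_nonneg (fun _ => (1 : ℂ)) r
    linarith
  have hinvd : ∀ h : ℂ → ℂ, Differentiable ℂ h → (∀ z, h z ≠ 0) →
      Differentiable ℂ (fun z => (h z)⁻¹) := fun h hd hne => hd.inv hne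
  have hinv : ∀ h : ℂ → ℂ, Un T h → Un T (fun z => (h z)⁻¹) := by
    intro h hh
    obtain ⟨K, hK⟩ := hinvb h hh.diff hh.ne
    exact ⟨hinvd h hh.diff hh.ne, fun z => inv_ne_zero (hh.ne z),
      tame_of_le hB hT K hh.tame hone.tame hK⟩
  have hsinv : ∀ h : ℂ → ℂ, Sm T h → (∀ z, h z ≠ 0) → Un T h ∧ Sm T (fun z => (h z)⁻¹) := by
    intro h hh hne
    obtain ⟨K, hK⟩ := hinvb h hh.diff hne
    exact ⟨⟨hh.diff, hne, hh.tame⟩, ⟨hinvd h hh.diff hne,
      tame_of_le hB hT K hh.tame hone.tame hK,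
      small_of_le hB hT K hh.small (sm_const hB hT 1).small hK⟩⟩
  have hzpow : ∀ h : ℂ → ℂ, Un T h → ∀ n : ℤ, Un T (fun z => h z ^ n) := by
    intro h hh n
    have hnat : ∀ n : ℕ, Un T (fun z => h z ^ n) := by
      intro n
      induction n with
      | zero => simpa using hone
      | succ n ih =>
        have := hmul _ _ ih hh
        simpa [pow_succ] using this
    rcases n with n | n
    · simpa using hnat n
    · have := hinv _ (hnat (n + 1))
      simpa [zpow_negSucc] using this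
  have hszpow : ∀ h : ℂ → ℂ, Un T h → Sm T h → ∀ n : ℤ, Sm T (fun z => h z ^ n) := by
    intro h hu hh n
    have hnat : ∀ n : ℕ, Sm T (fun z => h z ^ n) := by
      intro n
      induction n with
      | zero => simpa using sm_const hB hT 1
      | succ n ih =>
        have := sm_mul hB hT ih hh
        simpa [pow_succ] using this
    rcases n with n | n
    · simpa using hnat n
    · have := (hsinv _ (hnat (n + 1)) fun z => pow_ne_zero _ (hu.ne z)).2
      simpa [zpow_negSucc] using this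
  refine ⟨hmul, hinv, hsinv, fun h hh hs => ⟨hh.diff, hh.tame, hs⟩, ?_, ?_, ?_⟩
  · intro h n hn hh hs
    refine ⟨hh.diff, hh.tame, fun ε hε => ?_⟩
    have hn' : (0 : ℝ) < n := Nat.cast_pos.2 hn
    filter_upwards [hs.small (n * ε) (by positivity)] with r hr
    rw [px_pow, mul_assoc] at hr
    exact le_of_mul_le_mul_left hr hn'
  · intro b hb e
    have h1 : mon b e = fun z => ((b 0 z ^ e 0 * b 1 z ^ e 1) * b 2 z ^ e 2) * b 3 z ^ e 3 := by
      funext z
      unfold mon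
      rw [Fin.prod_univ_four]
    rw [h1]
    exact hmul _ _ (hmul _ _ (hmul _ _ (hzpow _ (hb 0) _) (hzpow _ (hb 1) _)) (hzpow _ (hb 2) _))
      (hzpow _ (hb 3) _)
  · intro b hb hs e
    have h1 : mon b e = fun z => ((b 0 z ^ e 0 * b 1 z ^ e 1) * b 2 z ^ e 2) * b 3 z ^ e 3 := by
      funext z
      unfold mon
      rw [Fin.prod_univ_four]
    rw [h1]
    exact sm_mul hB hT (sm_mul hB hT (sm_mul hB hT (hszpow _ (hb 0) (hs 0) _)
      (hszpow _ (hb 1) (hs 1) _)) (hszpow _ (hb 2) (hs 2) _)) (hszpow _ (hb 3) (hs 3) _)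

end Pool.Agent.Q121.DS
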